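import Pool.Agent.H78.Dis.Graph

set_option autoImplicit false

/-! # The entropy inequality for the weights of the graph `K` -/

open Finset Fintype H78D H78D.Inst

namespace H87Dis

/-- `log₂ (tot / a x) ≤ cc x` -/
def cc (x : Fin 30) : ℕ :=
  if lev x = 0 then 2 else if lev x = 1 then 13 else if a x = 137438953472 then 25 else 48

lemma cc_ok : ∀ x : Fin 30, tot a ≤ a x * 2 ^ cc x := by
  rw [tot_a]; decide +kernel

lemma log_le (x : Fin 30) : Real.log (tot a / a x) ≤ (cc x : ℝ) * Real.log 2 := by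
  have h0 : (0 : ℝ) < a x := by exact_mod_cast a_pos x
  have ht : (0 : ℝ) < tot a := by rw [tot_a]; norm_num
  rw [← Real.log_pow]
  apply Real.log_le_log (by positivity)
  rw [div_le_iff₀ h0]
  have := cc_ok x
  have h : ((tot a : ℕ) : ℝ) ≤ ((a x * 2 ^ cc x : ℕ) : ℝ) := by exact_mod_cast this
  push_cast at h
  linarith [mul_comm (a x : ℝ) (2 ^ cc x)]

lemma sum_le (s : Finset (Fin 30)) :
    ∑ x ∈ s, (a x : ℝ) * Real.log (tot a / a x) ≤ ((∑ x ∈ s, a x * cc x : ℕ) : ℝ) * Real.log 2 := by
  push_cast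
  rw [Finset.sum_mul]
  apply Finset.sum_le_sum
  intro x _
  have h0 : (0 : ℝ) ≤ a x := by positivity
  calc (a x : ℝ) * Real.log (tot a / a x) ≤ (a x : ℝ) * ((cc x : ℝ) * Real.log 2) :=
        mul_le_mul_of_nonneg_left (log_le x) h0
    _ = _ := by ring

lemma mul_log_le {A T : ℝ} (hA : 0 < A) (hT : 0 < T) : A * Real.log (T / A) ≤ T - A := by
  have h := Real.log_le_sub_one_of_pos (div_pos hT hA)
  calc A * Real.log (T / A) ≤ A * (T / A - 1) := mul_le_mul_of_nonneg_left h hA.le
    _ = T - A := by field_simp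

/-- sums over the upper levels -/
lemma s0 : ∑ x ∈ univ.filter (fun x => 0 < lev x), a x * cc x ≤ 65913259800000000 := by
  decide +kernel

lemma s1 : ∑ x ∈ univ.filter (fun x => 1 < lev x), a x * cc x ≤ 48110000000000 := by
  decide +kernel

lemma t0 : ∑ x ∈ univ.filter (fun x => lev x ≤ 0), a x = 2305843009213693952 := by
  decide +kernel

lemma t1 : ∑ x ∈ univ.filter (fun x => lev x ≤ 1), a x = 2310909558794485760 := by
  decide +kernel

lemma t2 : ∑ x ∈ univ.filter (fun x => lev x ≤ 2), a x = 2310911482973462556 := by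
  decide +kernel

lemma lev_cases : ∀ x : Fin 30, (lev x = 0 ∧ a x = 1152921504606846976) ∨
    (lev x = 1 ∧ a x = 562949953421312) ∨ lev x = 2 := by decide +kernel

lemma filt2 : univ.filter (fun x : Fin 30 => 2 < lev x) = ∅ := by decide +kernel

/-- the entropy inequality -/
theorem hn : ∀ x₀ : Fin 30, 3 * (∑ x ∈ univ.filter (fun x => lev x₀ < lev x),
        (a x : ℝ) * Real.log (tot a / a x)
      + (∑ x ∈ univ.filter (fun x => lev x ≤ lev x₀), (a x : ℝ)) *
        Real.log (tot a / ∑ x ∈ univ.filter (fun x => lev x ≤ lev x₀), (a x : ℝ)))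
      ≤ (a x₀ : ℝ) / 2 * Real.log 2 := by
  intro x₀
  have hl := Real.log_two_gt_d9
  rcases lev_cases x₀ with ⟨h, ha⟩ | ⟨h, ha⟩ | h
  · rw [h, ha]
    have hs := sum_le (univ.filter (fun x => 0 < lev x))
    have hs0 : ((∑ x ∈ univ.filter (fun x => 0 < lev x), a x * cc x : ℕ) : ℝ) ≤
      65913259800000000 := by exact_mod_cast s0
    have ht0 : ∑ x ∈ univ.filter (fun x => lev x ≤ 0), (a x : ℝ) = 2305843009213693952 := by
      exact_mod_cast t0
    rw [ht0]
    have htot : (tot a : ℝ) = 2310911482973462556 := by exact_mod_cast tot_a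
    have hm := mul_log_le (A := 2305843009213693952) (T := (tot a : ℝ)) (by norm_num)
      (by rw [htot]; norm_num)
    have hmul := mul_le_mul_of_nonneg_right hs0 (by linarith : (0 : ℝ) ≤ Real.log 2)
    push_cast
    rw [htot] at hs hm ⊢
    linarith
  · rw [h, ha]
    have hs := sum_le (univ.filter (fun x => 1 < lev x))
    have hs0 : ((∑ x ∈ univ.filter (fun x => 1 < lev x), a x * cc x : ℕ) : ℝ) ≤
      48110000000000 := by exact_mod_cast s1
    have ht0 : ∑ x ∈ univ.filter (fun x => lev x ≤ 1), (a x : ℝ) = 2310909558794485760 := by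
      exact_mod_cast t1
    rw [ht0]
    have htot : (tot a : ℝ) = 2310911482973462556 := by exact_mod_cast tot_a
    have hm := mul_log_le (A := 2310909558794485760) (T := (tot a : ℝ)) (by norm_num)
      (by rw [htot]; norm_num)
    have hmul := mul_le_mul_of_nonneg_right hs0 (by linarith : (0 : ℝ) ≤ Real.log 2)
    push_cast
    rw [htot] at hs hm ⊢
    linarith
  · rw [h, filt2]
    have ht0 : ∑ x ∈ univ.filter (fun x => lev x ≤ 2), (a x : ℝ) = 2310911482973462556 := by
      exact_mod_cast t2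
    rw [ht0]
    have htot : (tot a : ℝ) = 2310911482973462556 := by exact_mod_cast tot_a
    rw [htot, div_self (by norm_num)]
    have h0 : (0 : ℝ) ≤ a x₀ := by positivity
    have : (0 : ℝ) ≤ (a x₀ : ℝ) / 2 * Real.log 2 := by positivity
    simpa using this

end H87Dis

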