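import Pool.Agent.H78.Dis.Defs

set_option autoImplicit false

open Finset Fintype

namespace H87Dis

open H78D

/-! ### counting lemmas -/

lemma noK4 {V : Type*} {G : SimpleGraph V} (hG : G.CliqueFree 4) {a b c d : V}
    (hab : G.Adj a b) (hac : G.Adj a c) (had : G.Adj a d) (hbc : G.Adj b c) (hbd : G.Adj b d)
    (hcd : G.Adj c d) : False := by
  classical
  refine hG {a, b, c, d} ?_
  rw [SimpleGraph.isNClique_iff]
  constructor
  · simp only [SimpleGraph.isClique_iff, Set.Pairwise]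
    intro x hx y hy hxy
    simp only [coe_insert, coe_singleton, Set.mem_insert_iff, Set.mem_singleton_iff] at hx hy
    rcases hx with rfl | rfl | rfl | rfl <;> rcases hy with rfl | rfl | rfl | rfl <;>
      first | exact (hxy rfl).elim | assumption | (apply SimpleGraph.Adj.symm; assumption)
  · rw [Finset.card_insert_of_notMem, Finset.card_insert_of_notMem, Finset.card_insert_of_notMem,
      Finset.card_singleton]
    · simpa using hcd.ne
    · simp only [mem_insert, mem_singleton, not_or]; exact ⟨hbc.ne, hbd.ne⟩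
    · simp only [mem_insert, mem_singleton, not_or]; exact ⟨hab.ne, hac.ne, had.ne⟩

section count

variable {V : Type} (G : SimpleGraph V)

open Classical in
/-- number of nonadjacent pairs -/
noncomputable def ne (A B : Finset V) : ℕ := #((A ×ˢ B).filter (fun p => ¬ G.Adj p.1 p.2))

open Classical in
noncomputable def nd (a b : V) : ℕ := if ¬ G.Adj a b then 1 else 0

lemma ne_eq (A B : Finset V) : ne G A B = ∑ a ∈ A, ∑ b ∈ B, nd G a b := by
  classical
  unfold ne nd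
  rw [Finset.card_filter, Finset.sum_product]

lemma ne_mono {A B A' B' : Finset V} (hA : A ⊆ A') (hB : B ⊆ B') : ne G A B ≤ ne G A' B' := by
  classical
  unfold ne
  apply Finset.card_le_card
  intro p hp
  rw [Finset.mem_filter, Finset.mem_product] at hp ⊢
  exact ⟨⟨hA hp.1.1, hB hp.1.2⟩, hp.2⟩

lemma nd_zero {a b : V} (h : nd G a b = 0) : G.Adj a b := by
  classical
  unfold nd at h
  by_contra hc
  simp [hc] at h

lemma four_sum (A B C D : Finset V)
    (h : ∀ a ∈ A, ∀ b ∈ B, ∀ c ∈ C, ∀ d ∈ D, ¬ (G.Adj a b ∧ G.Adj a c ∧ G.Adj a d ∧ G.Adj b c ∧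
      G.Adj b d ∧ G.Adj c d)) :
    #A * #B * #C * #D ≤ ne G A B * #C * #D + ne G A C * #B * #D + ne G A D * #B * #C +
      ne G B C * #A * #D + ne G B D * #A * #C + ne G C D * #A * #B := by
  classical
  have h1 : ∑ a ∈ A, ∑ b ∈ B, ∑ c ∈ C, ∑ d ∈ D, (1 : ℕ) ≤
      ∑ a ∈ A, ∑ b ∈ B, ∑ c ∈ C, ∑ d ∈ D, (nd G a b + nd G a c + nd G a d + nd G b c + nd G b d +
        nd G c d) := by
    refine Finset.sum_le_sum fun a ha => Finset.sum_le_sum fun b hb => Finset.sum_le_sum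
      fun c hc => Finset.sum_le_sum fun d hd => ?_
    by_contra hlt
    have h0 : nd G a b + nd G a c + nd G a d + nd G b c + nd G b d + nd G c d = 0 := by omega
    have e1 : nd G a b = 0 := by omega
    have e2 : nd G a c = 0 := by omega
    have e3 : nd G a d = 0 := by omega
    have e4 : nd G b c = 0 := by omega
    have e5 : nd G b d = 0 := by omega
    have e6 : nd G c d = 0 := by omega
    exact h a ha b hb c hc d hd ⟨nd_zero G e1, nd_zero G e2, nd_zero G e3, nd_zero G e4,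
      nd_zero G e5, nd_zero G e6⟩
  have h2 : ∑ a ∈ A, ∑ b ∈ B, ∑ c ∈ C, ∑ d ∈ D, (1 : ℕ) = #A * #B * #C * #D := by
    simp only [Finset.sum_const, smul_eq_mul, mul_one]
    ring
  have s1 : ∑ a ∈ A, ∑ b ∈ B, ∑ _c ∈ C, ∑ _d ∈ D, nd G a b = ne G A B * #C * #D := by
    rw [ne_eq]
    simp only [Finset.sum_const, smul_eq_mul, ← Finset.mul_sum]
    ring
  have s2 : ∑ a ∈ A, ∑ _b ∈ B, ∑ c ∈ C, ∑ _d ∈ D, nd G a c = ne G A C * #B * #D := by
    rw [ne_eq]
    simp only [Finset.sum_const, smul_eq_mul, ← Finset.mul_sum]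
    ring
  have s3 : ∑ a ∈ A, ∑ _b ∈ B, ∑ _c ∈ C, ∑ d ∈ D, nd G a d = ne G A D * #B * #C := by
    rw [ne_eq]
    simp only [Finset.sum_const, smul_eq_mul, ← Finset.mul_sum]
    ring
  have s4 : ∑ _a ∈ A, ∑ b ∈ B, ∑ c ∈ C, ∑ _d ∈ D, nd G b c = ne G B C * #A * #D := by
    rw [ne_eq]
    simp only [Finset.sum_const, smul_eq_mul, ← Finset.mul_sum]
    ring
  have s5 : ∑ _a ∈ A, ∑ b ∈ B, ∑ _c ∈ C, ∑ d ∈ D, nd G b d = ne G B D * #A * #C := by
    rw [ne_eq]
    simp only [Finset.sum_const, smul_eq_mul, ← Finset.mul_sum]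
    ring
  have s6 : ∑ _a ∈ A, ∑ _b ∈ B, ∑ c ∈ C, ∑ d ∈ D, nd G c d = ne G C D * #A * #B := by
    rw [ne_eq]
    simp only [Finset.sum_const, smul_eq_mul, ← Finset.mul_sum]
    ring
  rw [h2] at h1
  simp only [Finset.sum_add_distrib] at h1
  rw [s1, s2, s3, s4, s5, s6] at h1
  exact h1

lemma three_sum (A B C : Finset V)
    (h : ∀ a ∈ A, ∀ b ∈ B, ∀ c ∈ C, ¬ (G.Adj a b ∧ G.Adj a c ∧ G.Adj b c)) :
    #A * #B * #C ≤ ne G A B * #C + ne G A C * #B + ne G B C * #A := by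
  classical
  have h1 : ∑ a ∈ A, ∑ b ∈ B, ∑ c ∈ C, (1 : ℕ) ≤
      ∑ a ∈ A, ∑ b ∈ B, ∑ c ∈ C, (nd G a b + nd G a c + nd G b c) := by
    refine Finset.sum_le_sum fun a ha => Finset.sum_le_sum fun b hb => Finset.sum_le_sum
      fun c hc => ?_
    by_contra hlt
    have h0 : nd G a b + nd G a c + nd G b c = 0 := by omega
    have e1 : nd G a b = 0 := by omega
    have e2 : nd G a c = 0 := by omega
    have e4 : nd G b c = 0 := by omega
    exact h a ha b hb c hc ⟨nd_zero G e1, nd_zero G e2, nd_zero G e4⟩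
  have h2 : ∑ a ∈ A, ∑ b ∈ B, ∑ c ∈ C, (1 : ℕ) = #A * #B * #C := by
    simp only [Finset.sum_const, smul_eq_mul, mul_one]
    ring
  have s1 : ∑ a ∈ A, ∑ b ∈ B, ∑ _c ∈ C, nd G a b = ne G A B * #C := by
    rw [ne_eq]
    simp only [Finset.sum_const, smul_eq_mul, ← Finset.mul_sum]
    ring
  have s2 : ∑ a ∈ A, ∑ _b ∈ B, ∑ c ∈ C, nd G a c = ne G A C * #B := by
    rw [ne_eq]
    simp only [Finset.sum_const, smul_eq_mul, ← Finset.mul_sum]
    ring
  have s4 : ∑ _a ∈ A, ∑ b ∈ B, ∑ c ∈ C, nd G b c = ne G B C * #A := by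
    rw [ne_eq]
    simp only [Finset.sum_const, smul_eq_mul]
    ring
  rw [h2] at h1
  simp only [Finset.sum_add_distrib] at h1
  rw [s1, s2, s4] at h1
  exact h1

/-- quadruple lemma -/
lemma QL4 {n γ ε : ℝ} (hn : 0 < n) (hγ : 0 < γ) (hε : 6 * ε < γ ^ 2) (hG : G.CliqueFree 4)
    (A B C D : Finset V)
    (hA : γ * n ≤ #A) (hB : γ * n ≤ #B) (hC : γ * n ≤ #C) (hD : γ * n ≤ #D)
    (hAB : (ne G A B : ℝ) ≤ ε * n ^ 2) (hAC : (ne G A C : ℝ) ≤ ε * n ^ 2)
    (hAD : (ne G A D : ℝ) ≤ ε * n ^ 2) (hBC : (ne G B C : ℝ) ≤ ε * n ^ 2)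
    (hBD : (ne G B D : ℝ) ≤ ε * n ^ 2) (hCD : (ne G C D : ℝ) ≤ ε * n ^ 2) : False := by
  classical
  have h := four_sum G A B C D (by
    rintro a - b - c - d - ⟨h1, h2, h3, h4, h5, h6⟩
    exact noK4 hG h1 h2 h3 h4 h5 h6)
  have h' : (#A : ℝ) * #B * #C * #D ≤ ne G A B * #C * #D + ne G A C * #B * #D +
      ne G A D * #B * #C + ne G B C * #A * #D + ne G B D * #A * #C + ne G C D * #A * #B := by
    exact_mod_cast h
  have hγn : 0 < γ * n := mul_pos hγ hn
  have key : ∀ x y : ℝ, γ * n ≤ x → γ * n ≤ y → 6 * (ε * n ^ 2) < x * y := by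
    intro x y hx hy
    have h1 : (γ * n) * (γ * n) ≤ x * y := mul_le_mul hx hy hγn.le (hγn.le.trans hx)
    have h2 : 0 < n ^ 2 := by positivity
    nlinarith
  set p : ℝ := (#A : ℝ)
  set q : ℝ := (#B : ℝ)
  set r : ℝ := (#C : ℝ)
  set s : ℝ := (#D : ℝ)
  have hp : 0 < p := hγn.trans_le hA
  have hq : 0 < q := hγn.trans_le hB
  have hr : 0 < r := hγn.trans_le hC
  have hs : 0 < s := hγn.trans_le hD
  have t1 : (ne G A B : ℝ) * r * s < p * q * r * s / 6 := by
    have := key p q hA hB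
    have h3 : (ne G A B : ℝ) < p * q / 6 := by linarith
    have h4 : (ne G A B : ℝ) * (r * s) < p * q / 6 * (r * s) :=
      mul_lt_mul_of_pos_right h3 (mul_pos hr hs)
    linarith
  have t2 : (ne G A C : ℝ) * q * s < p * q * r * s / 6 := by
    have := key p r hA hC
    have h3 : (ne G A C : ℝ) < p * r / 6 := by linarith
    have h4 : (ne G A C : ℝ) * (q * s) < p * r / 6 * (q * s) :=
      mul_lt_mul_of_pos_right h3 (mul_pos hq hs)
    linarith
  have t3 : (ne G A D : ℝ) * q * r < p * q * r * s / 6 := by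
    have := key p s hA hD
    have h3 : (ne G A D : ℝ) < p * s / 6 := by linarith
    have h4 : (ne G A D : ℝ) * (q * r) < p * s / 6 * (q * r) :=
      mul_lt_mul_of_pos_right h3 (mul_pos hq hr)
    linarith
  have t4 : (ne G B C : ℝ) * p * s < p * q * r * s / 6 := by
    have := key q r hB hC
    have h3 : (ne G B C : ℝ) < q * r / 6 := by linarith
    have h4 : (ne G B C : ℝ) * (p * s) < q * r / 6 * (p * s) :=
      mul_lt_mul_of_pos_right h3 (mul_pos hp hs)
    linarith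
  have t5 : (ne G B D : ℝ) * p * r < p * q * r * s / 6 := by
    have := key q s hB hD
    have h3 : (ne G B D : ℝ) < q * s / 6 := by linarith
    have h4 : (ne G B D : ℝ) * (p * r) < q * s / 6 * (p * r) :=
      mul_lt_mul_of_pos_right h3 (mul_pos hp hr)
    linarith
  have t6 : (ne G C D : ℝ) * p * q < p * q * r * s / 6 := by
    have := key r s hC hD
    have h3 : (ne G C D : ℝ) < r * s / 6 := by linarith
    have h4 : (ne G C D : ℝ) * (p * q) < r * s / 6 * (p * q) :=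
      mul_lt_mul_of_pos_right h3 (mul_pos hp hq)
    linarith
  linarith

/-- a vertex adjacent to everything in three sets -/
lemma QL3 {n γ ε : ℝ} (hn : 0 < n) (hγ : 0 < γ) (hε : 6 * ε < γ ^ 2) (hG : G.CliqueFree 4) (v : V)
    (A B C : Finset V) (hvA : ∀ a ∈ A, G.Adj v a) (hvB : ∀ a ∈ B, G.Adj v a)
    (hvC : ∀ a ∈ C, G.Adj v a)
    (hA : γ * n ≤ #A) (hB : γ * n ≤ #B) (hC : γ * n ≤ #C)
    (hAB : (ne G A B : ℝ) ≤ ε * n ^ 2) (hAC : (ne G A C : ℝ) ≤ ε * n ^ 2)
    (hBC : (ne G B C : ℝ) ≤ ε * n ^ 2) : False := by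
  classical
  have h := three_sum G A B C (by
    rintro a ha b hb c hc ⟨h1, h2, h4⟩
    exact noK4 hG (hvA a ha) (hvB b hb) (hvC c hc) h1 h2 h4)
  have h' : (#A : ℝ) * #B * #C ≤ ne G A B * #C + ne G A C * #B + ne G B C * #A := by
    exact_mod_cast h
  have hγn : 0 < γ * n := mul_pos hγ hn
  have key : ∀ x y : ℝ, γ * n ≤ x → γ * n ≤ y → 6 * (ε * n ^ 2) < x * y := by
    intro x y hx hy
    have h1 : (γ * n) * (γ * n) ≤ x * y := mul_le_mul hx hy hγn.le (hγn.le.trans hx)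
    have h2 : 0 < n ^ 2 := by positivity
    nlinarith
  set p : ℝ := (#A : ℝ)
  set q : ℝ := (#B : ℝ)
  set r : ℝ := (#C : ℝ)
  have hp : 0 < p := hγn.trans_le hA
  have hq : 0 < q := hγn.trans_le hB
  have hr : 0 < r := hγn.trans_le hC
  have t1 : (ne G A B : ℝ) * r < p * q * r / 6 := by
    have := key p q hA hB
    have h3 : (ne G A B : ℝ) < p * q / 6 := by linarith
    have h4 := mul_lt_mul_of_pos_right h3 hr
    linarith
  have t2 : (ne G A C : ℝ) * q < p * q * r / 6 := by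
    have := key p r hA hC
    have h3 : (ne G A C : ℝ) < p * r / 6 := by linarith
    have h4 := mul_lt_mul_of_pos_right h3 hq
    linarith
  have t4 : (ne G B C : ℝ) * p < p * q * r / 6 := by
    have := key q r hB hC
    have h3 : (ne G B C : ℝ) < q * r / 6 := by linarith
    have h4 := mul_lt_mul_of_pos_right h3 hp
    linarith
  have h5 : 0 < p * q * r := by positivity
  linarith

/-- two vertices adjacent to everything in two sets -/
lemma QL2 {n γ ε : ℝ} (hn : 0 < n) (hγ : 0 < γ) (hε : 6 * ε < γ ^ 2) (hG : G.CliqueFree 4) (u v : V)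
    (huv : G.Adj u v) (A B : Finset V) (hvA : ∀ a ∈ A, G.Adj v a ∧ G.Adj u a)
    (hvB : ∀ a ∈ B, G.Adj v a ∧ G.Adj u a)
    (hA : γ * n ≤ #A) (hB : γ * n ≤ #B)
    (hAB : (ne G A B : ℝ) ≤ ε * n ^ 2) (hε0 : 0 < ε) : False := by
  classical
  have h : #A * #B ≤ ne G A B := by
    rw [ne_eq]
    calc #A * #B = ∑ _a ∈ A, ∑ _b ∈ B, 1 := by simp
      _ ≤ _ := Finset.sum_le_sum fun a ha => Finset.sum_le_sum fun b hb => by
        by_contra hlt
        have h0 : nd G a b = 0 := by omega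
        exact noK4 hG huv (hvA a ha).2 (hvB b hb).2 (hvA a ha).1 (hvB b hb).1
          (nd_zero G h0)
  have h' : (#A : ℝ) * #B ≤ ne G A B := by exact_mod_cast h
  have hγn : 0 < γ * n := mul_pos hγ hn
  have h1 : (γ * n) * (γ * n) ≤ (#A : ℝ) * #B := mul_le_mul hA hB hγn.le (hγn.le.trans hA)
  have h2 : 0 < n ^ 2 := by positivity
  nlinarith

end count

end H87Dis
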